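import Pool.Agent.Q60.D3P.Stm
import Pool.Agent.Q210.D3.T2

/-! JOB C3: the balanced monomials are good (after helper210's job T2 of D3). -/

namespace Pool.Agent.Q60.D3P.G280

open Pool.Agent.H204R3.CM
open Pool.Agent.Q60.D3 hiding Gen GC Good S_desc S_good_alt S_good_lin S_good_reindex S_good_mul
  S_good_pull S_ins S_pol S_weil S_bal S_conv S_close Mon S_cmd

variable [CP]
open Pool.Agent.Q210.D3 (mulF_apply isHom_comp hw_comp isHom_fst isHom_snd hw_alt alt_cxM decomp
  hw_mul conjF_mul chi_eq split_mem sigE ell)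

/-- A factor of a monomial. -/
inductive Fac (X : AV) : Type 1
  | det (A : AV) (D : KOn A 3) (h : Fin 3 → (X.H →ₗ[ℚ] A.H)) (hh : ∀ k, IsHom X A (h k)) : Fac X
  | crd (C : AV) (hC : CP.P C) (γ : MultilinearMap ℚ (fun _ : Fin 1 => C.H) ℂ)
      (w : (ℂ ≃+* ℂ) → ℤ) (hw : ∀ σ, HasWeight C.per (conjF σ γ) (w σ))
      (u : X.H →ₗ[ℚ] C.H) (hu : IsHom X C u) : Fac X
  | bil (β : MultilinearMap ℚ (fun _ : Fin 2 => X.H) ℚ) (hβ : HasWeight X.per (cxM β) 0) : Fac X

variable {X Y : AV}

/-- The number of the variables. -/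
def Fac.N : Fac X → ℕ
  | .det _ _ _ _ => 3
  | .crd _ _ _ _ _ _ _ => 1
  | .bil _ _ => 2

/-- The form. -/
noncomputable def Fac.F : (f : Fac X) → MultilinearMap ℚ (fun _ : Fin f.N => X.H) ℂ
  | .det _ D h _ => D.δ.toMultilinearMap.compLinearMap h
  | .crd _ _ γ _ _ u _ => γ.compLinearMap fun _ => u
  | .bil β _ => cxM β

/-- The weight. -/
noncomputable def Fac.wt : Fac X → (ℂ ≃+* ℂ) → ℤ
  | .det _ D _ _, σ => D.s * chi D.μ σ
  | .crd _ _ _ w _ _ _, σ => w σ
  | .bil _ _, _ => 0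

/-- Is it a determinant of size three? -/
def Fac.three : Fac X → ℕ
  | .det _ _ _ _ => 1
  | .crd _ _ _ _ _ _ _ => 0
  | .bil _ _ => 0

/-- Is it a bilinear form? -/
def Fac.two : Fac X → ℕ
  | .det _ _ _ _ => 0
  | .crd _ _ _ _ _ _ _ => 0
  | .bil _ _ => 1

/-- The variables of the product of a list. -/
def V : List (Fac X) → Type
  | [] => Empty
  | f :: l => Fin f.N ⊕ V l

instance instFV : (l : List (Fac X)) → Fintype (V l)
  | [] => inferInstanceAs (Fintype Empty)
  | f :: l => by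
    have _ := instFV l
    exact inferInstanceAs (Fintype (Fin f.N ⊕ V l))

instance instDV : (l : List (Fac X)) → DecidableEq (V l)
  | [] => inferInstanceAs (DecidableEq Empty)
  | f :: l => by
    have _ := instDV l
    exact inferInstanceAs (DecidableEq (Fin f.N ⊕ V l))

/-- The product of a list. -/
noncomputable def val : (l : List (Fac X)) → MultilinearMap ℚ (fun _ : V l => X.H) ℂ
  | [] => MultilinearMap.constOfIsEmpty ℚ (fun _ : Empty => X.H) (1 : ℂ)
  | f :: l => mulF f.F (val l)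

theorem val_cons (f : Fac X) (l : List (Fac X)) (v : Fin f.N ⊕ V l → X.H) :
    val (f :: l) v = f.F (fun k => v (Sum.inl k)) * val l (fun k => v (Sum.inr k)) := rfl

theorem good_eq (h3 : S_good_reindex) {κ κ' : Type} [Fintype κ] [DecidableEq κ] [Fintype κ']
    [DecidableEq κ'] (e : κ ≃ κ') {F : MultilinearMap ℚ (fun _ : κ => X.H) ℂ}
    {F' : MultilinearMap ℚ (fun _ : κ' => X.H) ℂ} (h : ∀ v, F' v = F fun k => v (e k))
    (hF : Good X κ F) : Good X κ' F' := by
  have h1 := h3 X κ κ' e F hF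
  have h2 : F.domDomCongr e = F' := by
    ext v
    rw [h v]
    rfl
  rwa [h2] at h1

theorem perm_val {l l' : List (Fac X)} (h : l.Perm l') :
    ∃ e : V l ≃ V l', ∀ v : V l' → X.H, val l' v = val l (fun k => v (e k)) := by
  induction h with
  | nil => exact ⟨Equiv.refl _, fun v => rfl⟩
  | cons x _ ih =>
    obtain ⟨e, he⟩ := ih
    refine ⟨Equiv.sumCongr (Equiv.refl (Fin x.N)) e, fun v => ?_⟩
    refine (val_cons _ _ v).trans ?_
    rw [he]
    rfl
  | swap x y l =>
    refine ⟨((Equiv.sumAssoc (Fin y.N) (Fin x.N) (V l)).symm.trans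
      ((Equiv.sumComm (Fin y.N) (Fin x.N)).sumCongr (Equiv.refl (V l)))).trans
      (Equiv.sumAssoc (Fin x.N) (Fin y.N) (V l)), fun v => ?_⟩
    refine (val_cons _ _ v).trans ?_
    rw [val_cons]
    refine Eq.trans ?_ (val_cons _ _ _).symm
    refine Eq.trans ?_ (congrArg _ (val_cons _ _ _).symm)
    refine (mul_left_comm _ _ _).trans ?_
    rfl
  | trans _ _ ih1 ih2 =>
    obtain ⟨e1, h1⟩ := ih1
    obtain ⟨e2, h2⟩ := ih2
    exact ⟨e1.trans e2, fun v => (h2 v).trans (h1 _)⟩

theorem good_perm (h3 : S_good_reindex) {l l' : List (Fac X)} (h : l.Perm l')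
    (hl : Good X (V l) (val l)) : Good X (V l') (val l') := by
  obtain ⟨e, he⟩ := perm_val h
  exact good_eq h3 e he hl

/-- The pull-back of a factor. -/
def Fac.pull (g : Y.H →ₗ[ℚ] X.H) (hg : IsHom Y X g) : Fac X → Fac Y
  | .det A D h hh => .det A D (fun k => (h k).comp g) (fun k => isHom_comp (hh k) hg)
  | .crd C hC γ w hw u hu => .crd C hC γ w hw (u.comp g) (isHom_comp hu hg)
  | .bil β hβ => .bil (β.compLinearMap fun _ => g) (hw_comp hβ (fun _ => g) fun _ => hg)

theorem pull_wt (g : Y.H →ₗ[ℚ] X.H) (hg : IsHom Y X g) (f : Fac X) (σ : ℂ ≃+* ℂ) :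
    (f.pull g hg).wt σ = f.wt σ := by
  cases f <;> rfl

theorem pull_three (g : Y.H →ₗ[ℚ] X.H) (hg : IsHom Y X g) (f : Fac X) :
    (f.pull g hg).three = f.three := by
  cases f <;> rfl

theorem val_pull (g : Y.H →ₗ[ℚ] X.H) (hg : IsHom Y X g) (l : List (Fac X)) :
    ∃ e : V (l.map (Fac.pull g hg)) ≃ V l, ∀ v : V (l.map (Fac.pull g hg)) → Y.H,
      val (l.map (Fac.pull g hg)) v = val l (fun k => g (v (e.symm k))) := by
  induction l with
  | nil => exact ⟨Equiv.refl _, fun v => rfl⟩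
  | cons f l ih =>
    obtain ⟨e, he⟩ := ih
    cases f with
    | det A D h hh =>
      refine ⟨Equiv.sumCongr (Equiv.refl (Fin 3)) e, fun v => ?_⟩
      refine (val_cons _ _ v).trans ?_
      rw [he]
      rfl
    | crd C hC γ w hw u hu =>
      refine ⟨Equiv.sumCongr (Equiv.refl (Fin 1)) e, fun v => ?_⟩
      refine (val_cons _ _ v).trans ?_
      rw [he]
      rfl
    | bil β hβ =>
      refine ⟨Equiv.sumCongr (Equiv.refl (Fin 2)) e, fun v => ?_⟩
      refine (val_cons _ _ v).trans ?_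
      rw [he]
      rfl

/-- A list is balanced. -/
def LBal (l : List (Fac X)) : Prop := ∀ σ : ℂ ≃+* ℂ, (l.map fun f => f.wt σ).sum = 0

/-- The number of determinants of size three. -/
def cnt (l : List (Fac X)) : ℕ := (l.map Fac.three).sum

/-- The number of bilinear forms. -/
def cn2 (l : List (Fac X)) : ℕ := (l.map Fac.two).sum

theorem LBal.perm {l l' : List (Fac X)} (h : l.Perm l') (hl : LBal l) : LBal l' := by
  intro d
  rw [← hl d]
  exact ((h.map _).sum_eq).symm

theorem cnt_perm {l l' : List (Fac X)} (h : l.Perm l') : cnt l = cnt l' := (h.map _).sum_eq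

theorem cn2_perm {l l' : List (Fac X)} (h : l.Perm l') : cn2 l = cn2 l' := (h.map _).sum_eq

/-- The induction step. -/
theorem step (h3 : S_good_reindex) (h6 : S_ins) (h7 : S_pol) (h11 : S_weil)
    (h12 : Pool.Agent.Q60.D3.S_ell) (h10 : Pool.Agent.Q60.D3.S_wt) (h13 : S_ecm)
    {A : AV} (D : KOn A 3) (h : Fin 3 → (X.H →ₗ[ℚ] A.H)) (hh : ∀ k, IsHom X A (h k))
    (l : List (Fac X)) (hl : LBal (.det A D h hh :: l))
    (IH : ∀ (Y : AV) (l' : List (Fac Y)), cnt l' = cnt l → LBal l' → Good Y (V l') (val l')) :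
    Good X (V (.det A D h hh :: l)) (val (.det A D h hh :: l)) := by
  obtain ⟨E, b, K, L, a1, a2, a3, a4, a5, a6⟩ := ell h12 D
  let kf : Fac (X.prod E) := .crd E (h13 E K) K.δ.toMultilinearMap (fun σ => K.s * chi K.μ σ)
    (fun σ => h10 E 1 K σ) (LinearMap.snd ℚ X.H E.H) (isHom_snd X E)
  let l' : List (Fac (X.prod E)) := l.map (Fac.pull (LinearMap.fst ℚ X.H E.H) (isHom_fst X E))
  have hcnt : cnt (kf :: l') = cnt l := by
    unfold cnt
    rw [List.map_cons, List.sum_cons]
    have e1 : kf.three = 0 := rfl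
    have e2 : List.map Fac.three l' = List.map Fac.three l := by
      rw [List.map_map]
      refine List.map_congr_left fun f _ => ?_
      exact pull_three _ _ f
    rw [e1, e2, zero_add]
  have hbal : LBal (kf :: l') := by
    intro σ
    have e0 := hl σ
    rw [List.map_cons, List.sum_cons] at e0 ⊢
    have e1 : kf.wt σ = (Fac.det A D h hh : Fac X).wt σ := by
      change K.s * chi K.μ σ = D.s * chi D.μ σ
      rw [a4]
      congr 1
      have hK : K.μ * K.μ = -(D.d : ℂ) := by rw [K.hμ, a1]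
      exact chi_eq hK D.hμ σ
    have e2 : List.map (fun f => f.wt σ) l' = List.map (fun f => f.wt σ) l := by
      rw [List.map_map]
      refine List.map_congr_left fun f _ => ?_
      exact pull_wt _ _ f σ
    rw [e1, e2, e0]
  have hg1 := IH _ (kf :: l') hcnt hbal
  obtain ⟨e, he⟩ := val_pull (X := X) (Y := X.prod E) (LinearMap.fst ℚ X.H E.H)
    (isHom_fst X E) l
  -- the first good form
  let e2 : Fin 1 ⊕ V l' ≃ V l ⊕ Fin 1 := (Equiv.sumComm (Fin 1) (V l')).trans
    (Equiv.sumCongr e (Equiv.refl (Fin 1)))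
  let F' : MultilinearMap ℚ (fun _ : V l ⊕ Fin 1 => (X.prod E).H) ℂ :=
    MultilinearMap.domDomCongr e2 (val (kf :: l'))
  have hF' : Good (X.prod E) (V l ⊕ Fin 1) F' := good_eq h3 e2 (fun v => rfl) hg1
  -- the second good form
  let G0 : MultilinearMap ℚ (fun _ : Fin 3 ⊕ Fin 1 => (A.prod E).H) ℂ :=
    mulF (D.δ.toMultilinearMap.compLinearMap fun _ => LinearMap.fst ℚ A.H E.H)
      (L.δ.toMultilinearMap.compLinearMap fun _ => LinearMap.snd ℚ A.H E.H)
  have hG0 : Good (A.prod E) (Fin 3 ⊕ Fin 1) G0 := h11 A E D L a2 a3 a5 G0 fun v => rfl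
  let G' : MultilinearMap ℚ (fun _ : Fin 3 ⊕ Fin 1 => (X.prod E).H) ℂ :=
    mulF (D.δ.toMultilinearMap.compLinearMap fun k => (h k).comp (LinearMap.fst ℚ X.H E.H))
      (L.δ.toMultilinearMap.compLinearMap fun _ => LinearMap.snd ℚ X.H E.H)
  have hG' : Good (X.prod E) (Fin 3 ⊕ Fin 1) G' :=
    h7 X A E D.δ L.δ G0 (fun v => rfl) hG0 h hh G' fun v => rfl
  have hfin := h6 X E (V l) (Fin 3) b K.δ L.δ a6 (val l)
    (D.δ.toMultilinearMap.compLinearMap h) F' G' (fun v => ?_) (fun v => rfl) hF' hG'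
  · exact good_eq h3 (Equiv.sumComm (V l) (Fin 3)) (fun v => mul_comm _ _) hfin
  · have e5 : (fun k => (LinearMap.fst ℚ X.H E.H) (v (e2 (Sum.inr (e.symm k))))) =
        fun k => (v (Sum.inl k)).1 := by
      funext k
      change (v (Sum.inl (e (e.symm k)))).1 = _
      rw [Equiv.apply_symm_apply]
    have e6 : val l' (fun k => v (e2 (Sum.inr k))) = val l (fun k => (v (Sum.inl k)).1) :=
      (he fun k => v (e2 (Sum.inr k))).trans (congrArg (val l) e5)
    change kf.F (fun k => v (e2 (Sum.inl k))) * val l' (fun k => v (e2 (Sum.inr k))) = _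
    rw [e6, mul_comm]
    rfl

/-! ## The base of the induction -/

/-- Rational forms of degree two and weight zero are good. -/
theorem good_two (h9 : Pool.Agent.Q60.D3.S_hodge) {κ : Type} [Fintype κ] [DecidableEq κ]
    (hκ : Nat.card κ = 2) (β : MultilinearMap ℚ (fun _ : κ => X.H) ℚ)
    (hβ : HasWeight X.per (cxM β) 0) : Good X κ (cxM β) := by
  unfold Good
  rw [alt_cxM]
  refine Submodule.subset_span ⟨_, Gen.divisor hκ _ ?_, rfl⟩
  rw [← h9, ← alt_cxM]
  exact hw_alt hβ

/-- Forms all whose conjugates have weight zero are good on varieties of CM type. -/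
theorem good_cm (h2 : S_good_lin) (h8 : Pool.Agent.Q60.D3.S_L0) (h9 : Pool.Agent.Q60.D3.S_hodge)
    (hX : CP.P X) {κ : Type} [Fintype κ] [DecidableEq κ]
    (P : MultilinearMap ℚ (fun _ : κ => X.H) ℂ)
    (hw : ∀ σ : ℂ ≃+* ℂ, HasWeight X.per (conjF σ P) 0) : Good X κ P := by
  obtain ⟨n, z, lam, hdec⟩ := decomp P
  obtain ⟨g1, g2, g3⟩ := h2 X κ
  rw [hdec]
  let S : Submodule ℂ (MultilinearMap ℚ (fun _ : κ => X.H) ℂ) :=
    { carrier := {F | Good X κ F}
      zero_mem' := g3
      add_mem' := fun {a b} ha hb => g1 a b ha hb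
      smul_mem' := fun c a ha => g2 c a ha }
  refine Submodule.sum_mem S fun j _ => S.smul_mem _ ?_
  have hβ := h8 X _ P hw (lam j)
  change Good X κ (cxM ((lam j).compMultilinearMap P))
  unfold Good
  rw [alt_cxM]
  refine Submodule.subset_span ⟨_, Gen.cm hX _ ?_, rfl⟩
  rw [← h9, ← alt_cxM]
  exact hw_alt hβ

theorem conjF_comp {κ : Type} (σ : ℂ ≃+* ℂ) (F : MultilinearMap ℚ (fun _ : κ => Y.H) ℂ)
    (g : κ → (X.H →ₗ[ℚ] Y.H)) :
    conjF σ (F.compLinearMap g) = (conjF σ F).compLinearMap g := rfl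

/-- A nonempty list of coordinates is a pull-back from a variety of CM type. -/
theorem crd_list (h14 : S_pcm) : ∀ (l : List (Fac X)), l ≠ [] → cnt l = 0 → cn2 l = 0 →
    ∃ (Y : AV) (_ : CP.P Y) (U : X.H →ₗ[ℚ] Y.H) (_ : IsHom X Y U)
      (G : MultilinearMap ℚ (fun _ : V l => Y.H) ℂ), (∀ v, val l v = G fun k => U (v k)) ∧
      ∀ σ : ℂ ≃+* ℂ, HasWeight Y.per (conjF σ G) ((l.map fun f => f.wt σ).sum) := by
  intro l
  induction l with
  | nil => intro h; exact absurd rfl h
  | cons f l ih =>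
    intro _ hc h2
    cases f with
    | det A D h hh =>
      exfalso
      have e1 : cnt (Fac.det A D h hh :: l) = 1 + cnt l := rfl
      omega
    | bil β hβ =>
      exfalso
      have e1 : cn2 (Fac.bil β hβ :: l) = 1 + cn2 l := rfl
      omega
    | crd C hC γ w hw u hu =>
      have hc' : cnt l = 0 := by
        have e1 : cnt (Fac.crd C hC γ w hw u hu :: l) = 0 + cnt l := rfl
        omega
      have h2' : cn2 l = 0 := by
        have e1 : cn2 (Fac.crd C hC γ w hw u hu :: l) = 0 + cn2 l := rfl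
        omega
      by_cases hl : l = []
      · subst hl
        let e : Fin 1 ≃ Fin 1 ⊕ V ([] : List (Fac X)) := (Equiv.sumEmpty (Fin 1) Empty).symm
        refine ⟨C, hC, u, hu, γ.domDomCongr e, fun v => ?_, fun σ => ?_⟩
        · change γ (fun _ => u (v (Sum.inl _))) * 1 = _
          rw [mul_one]
          rfl
        · have e1 : ((Fac.crd C hC γ w hw u hu :: ([] : List (Fac X))).map fun f => f.wt σ).sum = w σ := by
            change w σ + 0 = w σ
            rw [add_zero]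
          rw [e1]
          exact Pool.Agent.Q210.D3.hw_reindex (hw σ) e
      · obtain ⟨Y, hY, U, hU, G, hG, hGw⟩ := ih hl hc' h2'
        refine ⟨C.prod Y, h14 C Y hC hY, u.prod U, ?_,
          mulF (γ.compLinearMap fun _ => LinearMap.fst ℚ C.H Y.H)
            (G.compLinearMap fun _ => LinearMap.snd ℚ C.H Y.H), fun v => ?_, fun σ => ?_⟩
        · obtain ⟨c1, hc1⟩ := hu
          obtain ⟨c2, hc2⟩ := hU
          refine ⟨c1.prod c2, fun x => ?_⟩
          exact Prod.ext (hc1 x) (hc2 x)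
        · refine (val_cons _ _ v).trans ?_
          rw [hG]
          rfl
        · have e1 : ((Fac.crd C hC γ w hw u hu :: l).map fun f => f.wt σ).sum =
              w σ + (l.map fun f => f.wt σ).sum := rfl
          rw [e1]
          have h7 := conjF_mul σ
            (γ.compLinearMap fun _ : Fin 1 => (LinearMap.fst ℚ C.H Y.H : (C.prod Y).H →ₗ[ℚ] C.H))
            (G.compLinearMap fun _ : V l => (LinearMap.snd ℚ C.H Y.H : (C.prod Y).H →ₗ[ℚ] Y.H))
          have h8 := hw_mul
            (hw_comp (X := C.prod Y) (hw σ) (fun _ => LinearMap.fst ℚ C.H Y.H) fun _ => isHom_fst C Y)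
            (hw_comp (X := C.prod Y) (hGw σ) (fun _ => LinearMap.snd ℚ C.H Y.H)
              fun _ => isHom_snd C Y)
          exact Eq.mpr (congrArg (fun Z => HasWeight (C.prod Y).per Z
            (w σ + (l.map fun f => f.wt σ).sum)) h7) h8

theorem good_nil (h1 : S_good_alt) : Good X (V ([] : List (Fac X))) (val []) := by
  have _ : IsEmpty (V ([] : List (Fac X))) := inferInstanceAs (IsEmpty Empty)
  let f : X.H [⋀^V ([] : List (Fac X))]→ₗ[ℚ] ℚ := AlternatingMap.constOfIsEmpty ℚ X.H _ 1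
  have e1 : val ([] : List (Fac X)) = (cx f).toMultilinearMap := by
    ext v
    change (1 : ℂ) = ((1 : ℚ) : ℂ)
    simp
  rw [e1, h1]
  exact Submodule.subset_span ⟨_, Gen.unit _, rfl⟩

theorem base (h1 : S_good_alt) (h2 : S_good_lin) (h3 : S_good_reindex) (h4 : S_good_mul)
    (h5 : S_good_pull) (h8 : Pool.Agent.Q60.D3.S_L0) (h9 : Pool.Agent.Q60.D3.S_hodge)
    (h14 : S_pcm) :
    ∀ (n : ℕ) (l : List (Fac X)), cn2 l = n → cnt l = 0 → LBal l → Good X (V l) (val l) := by
  intro n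
  induction n with
  | zero =>
    intro l hn hc hb
    by_cases hl : l = []
    · subst hl; exact good_nil h1
    · obtain ⟨Y, hY, U, hU, G, hG, hGw⟩ := crd_list h14 l hl hc hn
      have hG0 : Good Y (V l) G := by
        refine good_cm h2 h8 h9 hY G fun σ => ?_
        have := hGw σ
        rwa [hb σ] at this
      have h6 := h5 X Y (V l) U hU G hG0
      exact good_eq h3 (Equiv.refl _) (fun v => hG v) h6
  | succ n ih =>
    intro l hn hc hb
    have h0 : ∃ f ∈ l, f.two ≠ 0 := by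
      by_contra hcon
      push Not at hcon
      have e1 : cn2 l = 0 := by
        unfold cn2
        rw [List.sum_eq_zero_iff]
        intro x hx
        obtain ⟨f, hf, rfl⟩ := List.mem_map.1 hx
        exact hcon f hf
      omega
    obtain ⟨f, hf, hf2⟩ := h0
    obtain ⟨l', hp⟩ := split_mem hf
    refine good_perm h3 hp.symm ?_
    have hc2 := hc
    rw [cnt_perm hp] at hc2
    have hn2 := hn
    rw [cn2_perm hp] at hn2
    have hb2 := hb.perm hp
    clear hp
    cases f with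
    | det A D h hh => exact absurd rfl hf2
    | crd C hC γ w hw u hu => exact absurd rfl hf2
    | bil β hβ =>
      have hc' : cnt l' = 0 := by
        have e1 : cnt (Fac.bil β hβ :: l') = 0 + cnt l' := rfl
        omega
      have hn' : cn2 l' = n := by
        have e1 : cn2 (Fac.bil β hβ :: l') = 1 + cn2 l' := rfl
        omega
      have hb' : LBal l' := by
        intro σ
        have e1 := hb2 σ
        rw [List.map_cons, List.sum_cons] at e1
        have e2 : (Fac.bil β hβ : Fac X).wt σ = 0 := rfl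
        rw [e2, zero_add] at e1
        exact e1
      have e3 := ih l' hn' hc' hb'
      exact h4 X (Fin 2) (V l') (cxM β) (val l') (good_two h9 (by simp) β hβ) e3

theorem bal_list (h1 : S_good_alt) (h2 : S_good_lin) (h3 : S_good_reindex) (h4 : S_good_mul)
    (h5 : S_good_pull) (h6 : S_ins) (h7 : S_pol) (h8 : S_weil) (h9 : Pool.Agent.Q60.D3.S_L0)
    (h10 : Pool.Agent.Q60.D3.S_hodge) (h11 : Pool.Agent.Q60.D3.S_wt)
    (h12 : Pool.Agent.Q60.D3.S_ell) (h13 : S_ecm) (h14 : S_pcm) :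
    ∀ (c : ℕ) (X : AV) (l : List (Fac X)), cnt l = c → LBal l → Good X (V l) (val l) := by
  intro c
  induction c with
  | zero =>
    intro X l hc hb
    exact base h1 h2 h3 h4 h5 h9 h10 h14 _ l rfl hc hb
  | succ c ih =>
    intro X l hc hb
    have h0 : ∃ f ∈ l, f.three ≠ 0 := by
      by_contra hcon
      push Not at hcon
      have e1 : cnt l = 0 := by
        unfold cnt
        rw [List.sum_eq_zero_iff]
        intro x hx
        obtain ⟨f, hf, rfl⟩ := List.mem_map.1 hx
        exact hcon f hf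
      omega
    obtain ⟨f, hf, hf3⟩ := h0
    obtain ⟨l', hp⟩ := split_mem hf
    refine good_perm h3 hp.symm ?_
    have hc2 := hc
    rw [cnt_perm hp] at hc2
    have hb2 := hb.perm hp
    clear hp
    cases f with
    | bil β hβ => exact absurd rfl hf3
    | crd C hC γ w hw u hu => exact absurd rfl hf3
    | det A D h hh =>
      have hc3 : cnt l' = c := by
        have e1 : cnt (Fac.det A D h hh :: l') = 1 + cnt l' := rfl
        omega
      exact step h3 h6 h7 h8 h12 h11 h13 D h hh l' hb2 fun Y l'' e1 e2 => ih Y l'' (e1.trans hc3) e2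

/-! ## Monomials as lists -/

theorem val_append (l l' : List (Fac X)) :
    ∃ e : V l ⊕ V l' ≃ V (l ++ l'), ∀ v : V (l ++ l') → X.H,
      val (l ++ l') v = val l (fun k => v (e (Sum.inl k))) * val l' (fun k => v (e (Sum.inr k))) := by
  induction l with
  | nil =>
    refine ⟨Equiv.emptySum Empty (V l'), fun v => ?_⟩
    refine (one_mul _).symm.trans ?_
    rfl
  | cons f l ih =>
    obtain ⟨e, he⟩ := ih
    refine ⟨(Equiv.sumAssoc (Fin f.N) (V l) (V l')).trans
      (Equiv.sumCongr (Equiv.refl (Fin f.N)) e), fun v => ?_⟩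
    refine (val_cons _ _ v).trans ?_
    refine (congrArg _ (he fun k => v (Sum.inr k))).trans ?_
    exact (mul_assoc _ _ _).symm

theorem val_ofFn {m : ℕ} (φ : Fin m → Fac X) :
    ∃ e : (Σ j, Fin (φ j).N) ≃ V (List.ofFn φ), ∀ v : V (List.ofFn φ) → X.H,
      val (List.ofFn φ) v = ∏ j, (φ j).F fun k => v (e ⟨j, k⟩) := by
  induction m with
  | zero =>
    have h0 : List.ofFn φ = [] := List.ofFn_zero
    rw [h0]
    have _ : IsEmpty (V ([] : List (Fac X))) := inferInstanceAs (IsEmpty Empty)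
    refine ⟨Equiv.equivOfIsEmpty _ _, fun v => ?_⟩
    rw [Finset.univ_eq_empty, Finset.prod_empty]
    rfl
  | succ m ih =>
    obtain ⟨e, he⟩ := ih fun j => φ j.succ
    have h0 : List.ofFn φ = φ 0 :: List.ofFn fun j => φ j.succ := List.ofFn_succ
    rw [h0]
    refine ⟨(sigE fun j => (φ j).N).trans (Equiv.sumCongr (Equiv.refl _) e), fun v => ?_⟩
    refine (val_cons _ _ v).trans ?_
    rw [he, Fin.prod_univ_succ]
    rfl

/-- JOB C3. -/
theorem bal (h1 : S_good_alt) (h2 : S_good_lin) (h3 : S_good_reindex) (h4 : S_good_mul)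
    (h5 : S_good_pull) (h6 : S_ins) (h7 : S_pol) (h8 : S_weil) (h9 : Pool.Agent.Q60.D3.S_L0)
    (h10 : Pool.Agent.Q60.D3.S_hodge) (h11 : Pool.Agent.Q60.D3.S_wt)
    (h12 : Pool.Agent.Q60.D3.S_ell) (h13 : S_ecm) (h14 : S_pcm) : S_bal := by
  intro X κ _ _ M hM F hF
  let φ : Fin M.m → Fac X := fun j => .det (M.A j) (M.D j) (M.h j) (M.hh j)
  let ξ : Fin M.r → Fac X := fun i => .crd (M.C i) (M.hC i) (M.γ i) (M.w i) (M.hw i) (M.u i) (M.hu i)
  let ψ : Fin M.p → Fac X := fun q => .bil (M.β q) (M.hβ q)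
  obtain ⟨e1, he1⟩ := val_ofFn φ
  obtain ⟨e0, he0⟩ := val_ofFn ξ
  obtain ⟨e2, he2⟩ := val_ofFn ψ
  obtain ⟨e3, he3⟩ := val_append (List.ofFn φ) (List.ofFn ξ)
  obtain ⟨e6, he6⟩ := val_append (List.ofFn φ ++ List.ofFn ξ) (List.ofFn ψ)
  have hb : LBal (List.ofFn φ ++ List.ofFn ξ ++ List.ofFn ψ) := by
    intro σ
    rw [List.map_append, List.map_append, List.sum_append, List.sum_append, List.map_ofFn,
      List.map_ofFn, List.map_ofFn, List.sum_ofFn, List.sum_ofFn, List.sum_ofFn]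
    have e4 : ∑ q, ((fun f : Fac X => f.wt σ) ∘ ψ) q = 0 := Finset.sum_eq_zero fun q _ => rfl
    rw [e4, add_zero]
    exact hM σ
  have hg := bal_list h1 h2 h3 h4 h5 h6 h7 h8 h9 h10 h11 h12 h13 h14 _ X _ rfl hb
  let s1 : (Σ j, Fin (φ j).N) ≃ Fin M.m × Fin 3 := Equiv.sigmaEquivProd (Fin M.m) (Fin 3)
  let s0 : (Σ i, Fin (ξ i).N) ≃ Fin M.r :=
    (Equiv.sigmaEquivProd (Fin M.r) (Fin 1)).trans (Equiv.prodUnique (Fin M.r) (Fin 1))
  let s2 : (Σ q, Fin (ψ q).N) ≃ Fin M.p × Fin 2 := Equiv.sigmaEquivProd (Fin M.p) (Fin 2)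
  let e5 : V (List.ofFn φ ++ List.ofFn ξ ++ List.ofFn ψ) ≃ κ :=
    e6.symm.trans ((Equiv.sumCongr (e3.symm.trans (Equiv.sumCongr (e1.symm.trans s1)
      (e0.symm.trans s0))) (e2.symm.trans s2)).trans M.e)
  have e5l : ∀ (j : Fin M.m) (k : Fin 3), e5 (e6 (Sum.inl (e3 (Sum.inl (e1 ⟨j, k⟩))))) =
      M.e (Sum.inl (Sum.inl (j, k))) := by
    intro j k
    simp only [e5, Equiv.trans_apply, Equiv.symm_apply_apply, Equiv.sumCongr_apply, Sum.map_inl]
    rfl
  have e5m : ∀ (i : Fin M.r) (k : Fin 1), e5 (e6 (Sum.inl (e3 (Sum.inr (e0 ⟨i, k⟩))))) =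
      M.e (Sum.inl (Sum.inr i)) := by
    intro i k
    simp only [e5, Equiv.trans_apply, Equiv.symm_apply_apply, Equiv.sumCongr_apply, Sum.map_inl,
      Sum.map_inr]
    rfl
  have e5r : ∀ (q : Fin M.p) (a : Fin 2), e5 (e6 (Sum.inr (e2 ⟨q, a⟩))) =
      M.e (Sum.inr (q, a)) := by
    intro q a
    simp only [e5, Equiv.trans_apply, Equiv.symm_apply_apply, Equiv.sumCongr_apply, Sum.map_inr]
    rfl
  refine good_eq h3 e5 (fun v => ?_) hg
  rw [hF, he6, he3, he1, he0, he2]
  unfold Pool.Agent.Q60.D3P.Mon.val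
  congr 1
  · congr 1
    · refine Finset.prod_congr rfl fun j _ => ?_
      change _ = (M.D j).δ fun k => M.h j k (v (e5 (e6 (Sum.inl (e3 (Sum.inl (e1 ⟨j, k⟩)))))))
      congr 1
      funext k
      rw [e5l]
    · refine Finset.prod_congr rfl fun i _ => ?_
      change _ = (M.γ i) fun k => M.u i (v (e5 (e6 (Sum.inl (e3 (Sum.inr (e0 ⟨i, k⟩)))))))
      congr 1
      funext k
      rw [e5m]
  · refine Finset.prod_congr rfl fun q _ => ?_
    change _ = ((M.β q fun a => v (e5 (e6 (Sum.inr (e2 ⟨q, a⟩)))) : ℚ) : ℂ)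
    congr 2
    funext a
    rw [e5r]

end Pool.Agent.Q60.D3P.G280
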