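import Mathlib
import Pool.Agent.Q60.D3P.Stm
import Pool.Agent.Q176.D3.Close

/-!
# Project D3C of helper60: JOB C6 (CLOSE), adapted from helper176's job CLOSE of project D3
-/

set_option autoImplicit false

namespace Pool.Agent.Q60.D3P.G177

open Matrix Pool.Agent.H204R3.CM Pool.Agent.W437.HC Pool.Agent.W437.HD
  Pool.Agent.W437.HP Pool.Agent.W437.HR
open Pool.Agent.Q60.D3

variable [CP]
open Pool.Agent.Q176.D3 (simple_transport perOne_pm)

theorem close (h1 : Pool.Agent.Q60.D3.S_nf) (h2 : Pool.Agent.Q60.D3.S_cmd)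
    (h3 : Pool.Agent.Q60.D3C.S_cmd) : Pool.Agent.Q60.D3P.S_close := by
  classical
  intro hmain ι _ X A hiso hs hd hcmP κ _ f hf
  obtain ⟨_⟩ := nonempty_fintype ι
  obtain ⟨_⟩ := nonempty_fintype κ
  obtain ⟨p, hp, hbij⟩ := hiso
  choose g Z e C hZ hpos hC using fun i => h1 (A i)
  have hfr : ∀ i, Module.finrank ℂ (A i).T = g i := fun i => by
    rw [(C i).finrank_eq, Module.finrank_fin_fun]
  choose Ct hCt using hp
  -- the homology
  let al : X.H →ₗ[ℚ] (Fin (NB g) ⊕ Fin (NB g) → ℚ) :=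
    ∑ i, (Matrix.mulVecLin (pm g ℚ i)ᵀ) ∘ₗ (e i).toLinearMap ∘ₗ (p i)
  have hal : ∀ v, al v = ∑ i, (pm g ℚ i)ᵀ *ᵥ (e i (p i v)) := by
    intro v
    simp only [al, LinearMap.sum_apply]
    rfl
  have hpa : ∀ i v, pm g ℚ i *ᵥ al v = e i (p i v) := by
    intro i v
    rw [hal, mulVec_sum, Finset.sum_eq_single i]
    · rw [mulVec_mulVec, pm_same, one_mulVec]
    · intro j _ hj
      rw [mulVec_mulVec, pm_off ℚ (Ne.symm hj), zero_mulVec]
    · intro h
      exact absurd (Finset.mem_univ _) h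
  have hinj : Function.Injective al := by
    rw [injective_iff_map_eq_zero]
    intro v hv
    apply hbij.1
    funext i
    have h3 := hpa i v
    rw [hv, mulVec_zero] at h3
    change p i v = p i 0
    rw [map_zero]
    exact (e i).injective (by rw [← h3, map_zero])
  have hsurj : Function.Surjective al := by
    intro y
    obtain ⟨v, hv⟩ := hbij.2 fun i => (e i).symm (pm g ℚ i *ᵥ y)
    refine ⟨v, ?_⟩
    rw [hal]
    have h3 : ∀ i, e i (p i v) = pm g ℚ i *ᵥ y := by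
      intro i
      have h4 : p i v = (e i).symm (pm g ℚ i *ᵥ y) := congrFun hv i
      rw [h4, LinearEquiv.apply_symm_apply]
    have h5 : ∑ i, (pm g ℚ i)ᵀ *ᵥ (e i (p i v)) = (∑ i, (pm g ℚ i)ᵀ * pm g ℚ i) *ᵥ y := by
      rw [sum_mulVec]
      refine Finset.sum_congr rfl fun i _ => ?_
      rw [h3, mulVec_mulVec]
    rw [h5, pm_tot, one_mulVec]
  let a : X.H ≃ₗ[ℚ] (Fin (NB g) ⊕ Fin (NB g) → ℚ) := LinearEquiv.ofBijective al ⟨hinj, hsurj⟩
  -- the tangent space
  let cl : X.T →ₗ[ℂ] (Fin (NB g) → ℂ) :=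
    ∑ i, (Matrix.mulVecLin (qm g ℂ i)ᵀ) ∘ₗ (C i).toLinearMap ∘ₗ (Ct i)
  have hcl : ∀ v, cl v = ∑ i, (qm g ℂ i)ᵀ *ᵥ (C i (Ct i v)) := by
    intro v
    simp only [cl, LinearMap.sum_apply]
    rfl
  have hper : ∀ w, cl (X.per w) = perOne (bigD ℂ Z) (a w) := by
    intro w
    rw [hcl]
    have h3 : ∀ i, C i (Ct i (X.per w)) = qm g ℂ i *ᵥ perOne (bigD ℂ Z) (a w) := by
      intro i
      rw [hCt, hC, ← perOne_pm Z i (a w)]
      congr 1
      exact (hpa i w).symm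
    have h4 : ∑ i, (qm g ℂ i)ᵀ *ᵥ (C i (Ct i (X.per w))) =
        (∑ i, (qm g ℂ i)ᵀ * qm g ℂ i) *ᵥ perOne (bigD ℂ Z) (a w) := by
      rw [sum_mulVec]
      refine Finset.sum_congr rfl fun i _ => ?_
      rw [h3, mulVec_mulVec]
    rw [h4, qm_tot, one_mulVec]
  have hsurjT : LinearMap.range cl = ⊤ := by
    rw [eq_top_iff, ← (Pi.basisFun ℂ (Fin (NB g))).span_eq, Submodule.span_le]
    rintro _ ⟨j, rfl⟩
    refine ⟨X.per (a.symm (Pi.single (Sum.inl j) 1)), ?_⟩
    rw [hper, LinearEquiv.apply_symm_apply, Pi.basisFun_apply]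
    funext k
    change ((Pi.single (Sum.inl j) 1 : Fin (NB g) ⊕ Fin (NB g) → ℚ) (Sum.inl k) : ℂ) +
      ∑ l, bigD ℂ Z k l * (((Pi.single (Sum.inl j) 1 : Fin (NB g) ⊕ Fin (NB g) → ℚ)
        (Sum.inr l) : ℚ) : ℂ) = _
    have h3 : ∀ l, (Pi.single (Sum.inl j) 1 : Fin (NB g) ⊕ Fin (NB g) → ℚ) (Sum.inr l) = 0 := by
      intro l
      rw [Pi.single_apply, if_neg (by simp)]
    simp only [h3, Rat.cast_zero, mul_zero, Finset.sum_const_zero, add_zero, Pi.single_apply,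
      Sum.inl.injEq]
    split_ifs <;> simp
  have hdim : Module.finrank ℂ X.T = Module.finrank ℂ (Fin (NB g) → ℂ) := by
    have h3 := X.dim
    rw [a.finrank_eq, Module.finrank_fintype_fun_eq_card, Fintype.card_sum, Fintype.card_fin] at h3
    rw [Module.finrank_fin_fun]
    omega
  have hsT : Function.Surjective cl := LinearMap.range_eq_top.1 hsurjT
  have hiT : Function.Injective cl :=
    (LinearMap.injective_iff_surjective_of_finrank_eq_finrank hdim).2 hsT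
  let c : X.T ≃ₗ[ℂ] (Fin (NB g) → ℂ) := LinearEquiv.ofBijective cl ⟨hiT, hsT⟩
  refine hmain ι g Z hZ hpos (fun i => simple_transport (A i) (e i) (C i) (hC i) (hs i))
    (fun i => ?_) (fun i hZi hposi hi => ?_) X a c hper κ f hf
  · rcases hd i with h | h
    · left
      rw [← hfr i]
      exact h
    · right
      exact h3 (A i) (g i) (Z i) (e i) (C i) (hZ i) (hpos i) (hC i) (CP.cm _ h)
  · exact CP.iso (A i) (Pool.Agent.Q60.D3.ofZ (Z i) hZi hposi) (e i) (C i) (hC i)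
      (hcmP i (h2 (A i) (g i) (Z i) (e i) (C i) (hZ i) (hpos i) (hC i) (hs i) hi))

end Pool.Agent.Q60.D3P.G177
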