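import Pool.Agent.Q60.D3P.Stm
import Pool.Agent.Q128.D3.Conv

/-! JOB C8: the generated classes are Hodge classes (after helper128). -/

namespace Pool.Agent.Q60.D3P.G280

open Pool.Agent.H204R3.CM Pool.Agent.Q128.D3

variable [CP]

theorem conv : S_conv := by
  intro X κ f h
  induction h with
  | unit f => exact fun _ => hodge_unit f
  | divisor hκ f hf => exact fun _ => hf
  | weil f hf => exact fun _ => hf.2.1
  | cm hY f hf => exact fun _ => hf
  | zero X κ => exact fun _ => hodge_zero X κ
  | add f g _ _ ihf ihg => exact fun h => hodge_add (ihf h) (ihg h)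
  | smul a f _ ih => exact fun h => hodge_smul a (ih h)
  | reindex e f _ ih =>
    intro h
    exact hodge_reindex e (ih (Finite.of_equiv _ e.symm))
  | cup f g _ _ h hh ihf ihg => exact fun _ => hodge_cup (ihf inferInstance) (ihg inferInstance) h hh
  | pull h hh f _ ih => exact fun hfin => hodge_pull hh (ih hfin)
  | push b f _ g hg ih =>
    intro h
    have := Module.Finite.finite_basis b
    exact hodge_push b (ih inferInstance) g hg

end Pool.Agent.Q60.D3P.G280
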