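import Mathlib
import Pool.Agent.Q60.D3P.Stm

/-!
# Project D3 of helper60: JOB GEN1 (descent, linear combinations, renaming, products, pull-backs)
-/

set_option autoImplicit false

namespace Pool.Agent.Q60.D3P.G176

open Pool.Agent.H204R3.CM 
open Pool.Agent.Q60.D3 hiding Gen GC Good S_desc S_good_alt S_good_lin S_good_reindex S_good_mul
  S_good_pull S_ins S_pol S_weil S_bal S_conv S_close Mon S_cmd

variable [CP]

section basic

variable {H κ κ' : Type} [AddCommGroup H] [Module ℚ H]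

theorem cx_apply (f : H [⋀^κ]→ₗ[ℚ] ℚ) (v : κ → H) : cx f v = ((f v : ℚ) : ℂ) := rfl

end basic

/-- a rational retraction of the complex numbers -/
theorem exists_rho : ∃ ρ : ℂ →ₗ[ℚ] ℚ, ∀ q : ℚ, ρ (q : ℂ) = q := by
  obtain ⟨ρ, hρ⟩ := LinearMap.exists_leftInverse_of_injective (Algebra.linearMap ℚ ℂ)
    (LinearMap.ker_eq_bot.mpr (algebraMap ℚ ℂ).injective)
  refine ⟨ρ, fun q => ?_⟩
  have := LinearMap.congr_fun hρ q
  simpa using this

theorem desc : S_desc := by
  intro X κ f hf
  obtain ⟨ρ, hρ⟩ := exists_rho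
  have key : ∀ F ∈ GC X κ, ∀ c : ℂ, Gen X κ (ρ.compAlternatingMap (c • F)) := by
    intro F hF
    induction hF using Submodule.span_induction with
    | mem F h =>
      obtain ⟨g, hg, rfl⟩ := h
      intro c
      have h1 : ρ.compAlternatingMap (c • cx g) = ρ c • g := by
        ext v
        simp only [LinearMap.compAlternatingMap_apply, AlternatingMap.smul_apply, cx_apply,
          smul_eq_mul]
        have h2 : c * ((g v : ℚ) : ℂ) = (g v) • c := by
          rw [mul_comm, Rat.smul_def]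
        rw [h2, map_smul, smul_eq_mul, mul_comm]
      rw [h1]
      exact Gen.smul _ _ hg
    | zero =>
      intro c
      have h1 : ρ.compAlternatingMap (c • (0 : X.H [⋀^κ]→ₗ[ℚ] ℂ)) = 0 := by
        ext v; simp
      rw [h1]
      exact Gen.zero X κ
    | add F G _ _ hF hG =>
      intro c
      have h1 : ρ.compAlternatingMap (c • (F + G)) =
          ρ.compAlternatingMap (c • F) + ρ.compAlternatingMap (c • G) := by
        ext v; simp
      rw [h1]
      exact Gen.add _ _ (hF c) (hG c)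
    | smul a F _ hF =>
      intro c
      rw [smul_smul]
      exact hF (c * a)
  have h := key _ hf 1
  have h1 : ρ.compAlternatingMap ((1 : ℂ) • cx f) = f := by
    ext v
    simp only [LinearMap.compAlternatingMap_apply, one_smul, cx_apply, hρ]
  rwa [h1] at h

theorem nsmul_mem_iff {V : Type} [AddCommGroup V] [Module ℂ V] (S : Submodule ℂ V) (n : ℕ)
    (hn : n ≠ 0) (x : V) : n • x ∈ S ↔ x ∈ S := by
  have hn' : (n : ℂ) ≠ 0 := by exact_mod_cast hn
  rw [← Nat.cast_smul_eq_nsmul ℂ n x]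
  exact Submodule.smul_mem_iff S hn'

theorem good_alt : S_good_alt := by
  intro X κ _ _ F
  unfold Good
  rw [AlternatingMap.coe_alternatization]
  exact nsmul_mem_iff _ _ (Nat.factorial_ne_zero _) _

theorem alt_smul {H κ : Type} [AddCommGroup H] [Module ℚ H] [Fintype κ] [DecidableEq κ] (c : ℂ)
    (F : MultilinearMap ℚ (fun _ : κ => H) ℂ) :
    MultilinearMap.alternatization (c • F) = c • MultilinearMap.alternatization F := by
  ext v
  simp only [MultilinearMap.alternatization_apply, AlternatingMap.smul_apply, Finset.smul_sum]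
  refine Finset.sum_congr rfl fun σ _ => ?_
  rw [smul_comm]
  rfl

theorem good_lin : S_good_lin := by
  intro X κ _ _
  refine ⟨fun F G hF hG => ?_, fun c F hF => ?_, ?_⟩
  · unfold Good at *
    rw [map_add]
    exact Submodule.add_mem _ hF hG
  · unfold Good at *
    rw [alt_smul]
    exact Submodule.smul_mem _ _ hF
  · unfold Good
    rw [map_zero]
    exact Submodule.zero_mem _

theorem alt_reindex {H κ κ' : Type} [AddCommGroup H] [Module ℚ H] [Fintype κ] [DecidableEq κ]
    [Fintype κ'] [DecidableEq κ'] (e : κ ≃ κ') (F : MultilinearMap ℚ (fun _ : κ => H) ℂ) :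
    MultilinearMap.alternatization (F.domDomCongr e) =
      (MultilinearMap.alternatization F).domDomCongr e := by
  ext v
  rw [AlternatingMap.domDomCongr_apply, MultilinearMap.alternatization_apply,
    MultilinearMap.alternatization_apply]
  refine (Fintype.sum_equiv (Equiv.permCongr e) _ _ fun σ => ?_).symm
  have h1 : Equiv.Perm.sign (e.permCongr σ) = Equiv.Perm.sign σ := Equiv.Perm.sign_permCongr e σ
  rw [h1]
  congr 1
  simp only [MultilinearMap.domDomCongr_apply, Function.comp_apply]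
  congr 1
  ext k
  simp [Equiv.permCongr_apply]

theorem GC_reindex (X : AV) {κ κ' : Type} (e : κ ≃ κ') (F : X.H [⋀^κ]→ₗ[ℚ] ℂ)
    (hF : F ∈ GC X κ) : F.domDomCongr e ∈ GC X κ' := by
  induction hF using Submodule.span_induction with
  | mem F h =>
    obtain ⟨g, hg, rfl⟩ := h
    exact Submodule.subset_span ⟨g.domDomCongr e, Gen.reindex e g hg, rfl⟩
  | zero =>
    have : (0 : X.H [⋀^κ]→ₗ[ℚ] ℂ).domDomCongr e = 0 := rfl
    rw [this]
    exact Submodule.zero_mem _
  | add F G _ _ hF hG => exact Submodule.add_mem _ hF hG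
  | smul a F _ hF => exact Submodule.smul_mem _ a hF

theorem good_reindex : S_good_reindex := by
  intro X κ κ' _ _ _ _ e F hF
  unfold Good at *
  rw [alt_reindex]
  exact GC_reindex X e _ hF

theorem alt_comp {H H' κ : Type} [AddCommGroup H] [Module ℚ H] [AddCommGroup H'] [Module ℚ H']
    [Fintype κ] [DecidableEq κ] (h : H →ₗ[ℚ] H') (F : MultilinearMap ℚ (fun _ : κ => H') ℂ) :
    MultilinearMap.alternatization (F.compLinearMap fun _ => h) =
      (MultilinearMap.alternatization F).compLinearMap h := by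
  ext v
  simp only [MultilinearMap.alternatization_apply, AlternatingMap.compLinearMap_apply,
    MultilinearMap.domDomCongr_apply, MultilinearMap.compLinearMap_apply]

theorem good_pull : S_good_pull := by
  intro X Y κ _ _ h hh F hF
  unfold Good at *
  rw [alt_comp]
  revert hF
  generalize MultilinearMap.alternatization F = A
  intro hA
  induction hA using Submodule.span_induction with
  | mem F h' =>
    obtain ⟨g, hg, rfl⟩ := h'
    exact Submodule.subset_span ⟨g.compLinearMap h, Gen.pull h hh g hg, rfl⟩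
  | zero =>
    have : (0 : Y.H [⋀^κ]→ₗ[ℚ] ℂ).compLinearMap h = 0 := rfl
    rw [this]
    exact Submodule.zero_mem _
  | add F G _ _ hF hG => exact Submodule.add_mem _ hF hG
  | smul a F _ hF => exact Submodule.smul_mem _ a hF

section mul

variable {H κ κ' : Type} [AddCommGroup H] [Module ℚ H]

theorem mulF_apply (F : MultilinearMap ℚ (fun _ : κ => H) ℂ)
    (G : MultilinearMap ℚ (fun _ : κ' => H) ℂ) (v : κ ⊕ κ' → H) :
    mulF F G v = F (fun k => v (Sum.inl k)) * G (fun k => v (Sum.inr k)) := rfl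

variable [Fintype κ] [DecidableEq κ] [Fintype κ'] [DecidableEq κ']

/-- the unnormalised cup product of complex valued alternating forms -/
noncomputable def cupC (A : H [⋀^κ]→ₗ[ℚ] ℂ) (B : H [⋀^κ']→ₗ[ℚ] ℂ) : H [⋀^κ ⊕ κ']→ₗ[ℚ] ℂ :=
  MultilinearMap.alternatization (mulF A.toMultilinearMap B.toMultilinearMap)

theorem cupC_apply (A : H [⋀^κ]→ₗ[ℚ] ℂ) (B : H [⋀^κ']→ₗ[ℚ] ℂ) (v : κ ⊕ κ' → H) :
    cupC A B v = ∑ σ : Equiv.Perm (κ ⊕ κ'), Equiv.Perm.sign σ •
      (A (fun k => v (σ (Sum.inl k))) * B (fun k => v (σ (Sum.inr k)))) := by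
  unfold cupC
  rw [MultilinearMap.alternatization_apply]
  rfl

theorem cupC_add_left (A A' : H [⋀^κ]→ₗ[ℚ] ℂ) (B : H [⋀^κ']→ₗ[ℚ] ℂ) :
    cupC (A + A') B = cupC A B + cupC A' B := by
  ext v
  rw [AlternatingMap.add_apply, cupC_apply, cupC_apply, cupC_apply, ← Finset.sum_add_distrib]
  refine Finset.sum_congr rfl fun σ _ => ?_
  rw [← smul_add, AlternatingMap.add_apply, add_mul]

theorem cupC_add_right (A : H [⋀^κ]→ₗ[ℚ] ℂ) (B B' : H [⋀^κ']→ₗ[ℚ] ℂ) :
    cupC A (B + B') = cupC A B + cupC A B' := by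
  ext v
  rw [AlternatingMap.add_apply, cupC_apply, cupC_apply, cupC_apply, ← Finset.sum_add_distrib]
  refine Finset.sum_congr rfl fun σ _ => ?_
  rw [← smul_add, AlternatingMap.add_apply, mul_add]

theorem cupC_smul_left (c : ℂ) (A : H [⋀^κ]→ₗ[ℚ] ℂ) (B : H [⋀^κ']→ₗ[ℚ] ℂ) :
    cupC (c • A) B = c • cupC A B := by
  ext v
  rw [AlternatingMap.smul_apply, cupC_apply, cupC_apply, Finset.smul_sum]
  refine Finset.sum_congr rfl fun σ _ => ?_
  rw [smul_comm, AlternatingMap.smul_apply, smul_mul_assoc]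

theorem cupC_smul_right (c : ℂ) (A : H [⋀^κ]→ₗ[ℚ] ℂ) (B : H [⋀^κ']→ₗ[ℚ] ℂ) :
    cupC A (c • B) = c • cupC A B := by
  ext v
  rw [AlternatingMap.smul_apply, cupC_apply, cupC_apply, Finset.smul_sum]
  refine Finset.sum_congr rfl fun σ _ => ?_
  rw [smul_comm, AlternatingMap.smul_apply, mul_smul_comm]

theorem cupC_zero_left (B : H [⋀^κ']→ₗ[ℚ] ℂ) : cupC (0 : H [⋀^κ]→ₗ[ℚ] ℂ) B = 0 := by
  have := cupC_smul_left (0 : ℂ) (0 : H [⋀^κ]→ₗ[ℚ] ℂ) B
  simpa using this

theorem cupC_zero_right (A : H [⋀^κ]→ₗ[ℚ] ℂ) : cupC A (0 : H [⋀^κ']→ₗ[ℚ] ℂ) = 0 := by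
  have := cupC_smul_right (0 : ℂ) A (0 : H [⋀^κ']→ₗ[ℚ] ℂ)
  simpa using this

/-- the rational cup product -/
noncomputable def cupQ (f : H [⋀^κ]→ₗ[ℚ] ℚ) (g : H [⋀^κ']→ₗ[ℚ] ℚ) : H [⋀^κ ⊕ κ']→ₗ[ℚ] ℚ :=
  MultilinearMap.alternatization
    ((LinearMap.mul' ℚ ℚ).compMultilinearMap (f.toMultilinearMap.domCoprod g.toMultilinearMap))

theorem cupQ_apply (f : H [⋀^κ]→ₗ[ℚ] ℚ) (g : H [⋀^κ']→ₗ[ℚ] ℚ) (v : κ ⊕ κ' → H) :
    cupQ f g v = ∑ σ : Equiv.Perm (κ ⊕ κ'), Equiv.Perm.sign σ •
      (f (fun k => v (σ (Sum.inl k))) * g (fun k => v (σ (Sum.inr k)))) := by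
  unfold cupQ
  rw [MultilinearMap.alternatization_apply]
  rfl

theorem units_smul (u : ℤˣ) (q : ℚ) : u • q = ((u : ℤ) : ℚ) * q := by
  rw [Units.smul_def, zsmul_eq_mul]

theorem cx_cupQ (f : H [⋀^κ]→ₗ[ℚ] ℚ) (g : H [⋀^κ']→ₗ[ℚ] ℚ) :
    cx (cupQ f g) = cupC (cx f) (cx g) := by
  ext v
  rw [cx_apply, cupQ_apply, cupC_apply, Rat.cast_sum]
  refine Finset.sum_congr rfl fun σ _ => ?_
  rw [units_smul, cx_apply, cx_apply, Units.smul_def, zsmul_eq_mul]
  push_cast
  rfl

theorem gen_cupQ (X : AV) (f : X.H [⋀^κ]→ₗ[ℚ] ℚ) (g : X.H [⋀^κ']→ₗ[ℚ] ℚ) (hf : Gen X κ f)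
    (hg : Gen X κ' g) : Gen X (κ ⊕ κ') (cupQ f g) := by
  refine Gen.cup f g hf hg _ fun v => ?_
  rw [cupQ_apply]
  refine Finset.sum_congr rfl fun σ _ => ?_
  rw [units_smul]

theorem GC_cup (X : AV) (A : X.H [⋀^κ]→ₗ[ℚ] ℂ) (B : X.H [⋀^κ']→ₗ[ℚ] ℂ) (hA : A ∈ GC X κ)
    (hB : B ∈ GC X κ') : cupC A B ∈ GC X (κ ⊕ κ') := by
  induction hA using Submodule.span_induction with
  | mem F h =>
    obtain ⟨f, hf, rfl⟩ := h
    induction hB using Submodule.span_induction with
    | mem G h =>
      obtain ⟨g, hg, rfl⟩ := h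
      rw [← cx_cupQ]
      exact Submodule.subset_span ⟨_, gen_cupQ X f g hf hg, rfl⟩
    | zero =>
      rw [cupC_zero_right]
      exact Submodule.zero_mem _
    | add F G _ _ hF hG =>
      rw [cupC_add_right]
      exact Submodule.add_mem _ hF hG
    | smul a F _ hF =>
      rw [cupC_smul_right]
      exact Submodule.smul_mem _ a hF
  | zero =>
    rw [cupC_zero_left]
    exact Submodule.zero_mem _
  | add F G _ _ hF hG =>
    rw [cupC_add_left]
    exact Submodule.add_mem _ hF hG
  | smul a F _ hF =>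
    rw [cupC_smul_left]
    exact Submodule.smul_mem _ a hF

theorem alt_perm (m : MultilinearMap ℚ (fun _ : κ => H) ℂ) (σ : Equiv.Perm κ) :
    MultilinearMap.alternatization (m.domDomCongr σ) =
      Equiv.Perm.sign σ • MultilinearMap.alternatization m := by
  rw [alt_reindex]
  ext v
  rw [AlternatingMap.domDomCongr_apply, AlternatingMap.smul_apply]
  exact AlternatingMap.map_perm _ _ _

theorem alt_mulF (F : MultilinearMap ℚ (fun _ : κ => H) ℂ)
    (G : MultilinearMap ℚ (fun _ : κ' => H) ℂ) :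
    cupC (MultilinearMap.alternatization F) (MultilinearMap.alternatization G) =
      ((Fintype.card κ).factorial * (Fintype.card κ').factorial) •
        MultilinearMap.alternatization (mulF F G) := by
  have h1 : mulF (MultilinearMap.alternatization F).toMultilinearMap
      (MultilinearMap.alternatization G).toMultilinearMap =
      ∑ τ : Equiv.Perm κ, ∑ τ' : Equiv.Perm κ', (Equiv.Perm.sign (Equiv.Perm.sumCongr τ τ')) •
        (mulF F G).domDomCongr (Equiv.Perm.sumCongr τ τ') := by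
    ext v
    rw [mulF_apply, MultilinearMap.sum_apply]
    have e1 : (MultilinearMap.alternatization F).toMultilinearMap (fun k => v (Sum.inl k)) =
        ∑ τ : Equiv.Perm κ, Equiv.Perm.sign τ • F (fun k => v (Sum.inl (τ k))) := by
      change MultilinearMap.alternatization F (fun k => v (Sum.inl k)) = _
      rw [MultilinearMap.alternatization_apply]
      rfl
    have e2 : (MultilinearMap.alternatization G).toMultilinearMap (fun k => v (Sum.inr k)) =
        ∑ τ : Equiv.Perm κ', Equiv.Perm.sign τ • G (fun k => v (Sum.inr (τ k))) := by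
      change MultilinearMap.alternatization G (fun k => v (Sum.inr k)) = _
      rw [MultilinearMap.alternatization_apply]
      rfl
    rw [e1, e2, Finset.sum_mul_sum]
    refine Finset.sum_congr rfl fun τ _ => ?_
    rw [MultilinearMap.sum_apply]
    refine Finset.sum_congr rfl fun τ' _ => ?_
    rw [Equiv.Perm.sign_sumCongr, MultilinearMap.smul_apply, MultilinearMap.domDomCongr_apply,
      mulF_apply, mul_smul, Units.smul_def, Units.smul_def, Units.smul_def, Units.smul_def]
    simp only [zsmul_eq_mul, Equiv.Perm.sumCongr_apply, Sum.map_inl, Sum.map_inr]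
    ring
  unfold cupC
  rw [h1, map_sum]
  have h2 : ∀ τ : Equiv.Perm κ, MultilinearMap.alternatization
      (∑ τ' : Equiv.Perm κ', (Equiv.Perm.sign (Equiv.Perm.sumCongr τ τ')) •
        (mulF F G).domDomCongr (Equiv.Perm.sumCongr τ τ')) =
      (Fintype.card κ').factorial • MultilinearMap.alternatization (mulF F G) := by
    intro τ
    rw [map_sum, ← Fintype.card_perm, ← Finset.card_univ, ← Finset.sum_const]
    refine Finset.sum_congr rfl fun τ' _ => ?_
    have h3 : MultilinearMap.alternatization ((Equiv.Perm.sign (Equiv.Perm.sumCongr τ τ')) •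
        (mulF F G).domDomCongr (Equiv.Perm.sumCongr τ τ')) =
        (Equiv.Perm.sign (Equiv.Perm.sumCongr τ τ')) • MultilinearMap.alternatization
          ((mulF F G).domDomCongr (Equiv.Perm.sumCongr τ τ')) := by
      rw [Units.smul_def, Units.smul_def, map_zsmul]
    rw [h3, alt_perm, smul_smul, Int.units_mul_self, one_smul]
  rw [Finset.sum_congr rfl fun τ _ => h2 τ, Finset.sum_const, Finset.card_univ,
    Fintype.card_perm, smul_smul]

end mul

theorem good_mul : S_good_mul := by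
  intro X κ κ' _ _ _ _ F G hF hG
  unfold Good at *
  have h := GC_cup X _ _ hF hG
  rw [alt_mulF] at h
  exact (nsmul_mem_iff _ _ (Nat.mul_ne_zero (Nat.factorial_ne_zero _) (Nat.factorial_ne_zero _))
    _).mp h

end Pool.Agent.Q60.D3P.G176
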