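import Mathlib
import Pool.Agent.Q60.D3P.Fin
import Pool.Agent.Q60.D3.Top

/-!
# Hodge classes on products of abelian varieties of dimension at most three or of CM type
-/

set_option linter.unusedSectionVars false
set_option linter.unusedVariables false

namespace Pool.Agent.Q60.D3P

open Matrix Module Pool.Agent.H204R3.CM Pool.Agent.H204R3.SP Pool.Agent.W437.HC
  Pool.Agent.W437.HD Pool.Agent.W437.HP Pool.Agent.W437.HR Pool.Agent.W437.HQ
open Pool.Agent.Q60.D3 hiding Gen GC Good S_desc S_good_alt S_good_lin S_good_reindex S_good_mul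
  S_good_pull S_ins S_pol S_weil S_bal S_conv S_close Mon S_cmd
open Pool.Agent.Q60.D3C hiding Gen GC Good S_desc S_good_alt S_good_lin S_good_reindex S_good_mul
  S_good_pull S_ins S_pol S_weil S_bal S_conv S_close Mon S_ecm S_pcm

variable [CP]

/-- The data of a threefold. -/
theorem hasP_K (hc : Pool.Agent.Q144.D3.S_chiz') (hkon : S_kon) {g : ℕ}
    (Z : Matrix (Fin g) (Fin g) ℂ) (hZ : Zᵀ = Z) (hpos : (imM Z).PosDef) (K : KZ Z)
    (hK : KFull K) (hg : 3 = g) : HasP Z hZ hpos := by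
  subst hg
  refine ⟨Unit, inferInstance, fun _ => 3, fun _ => pieK hc hZ hpos K hK, fun _ => Or.inl ?_,
    fun y => resK hc hZ hpos K hK y⟩
  refine ⟨rfl, fun β => ?_⟩
  obtain ⟨L, hL1, hL2, hL3, hL4⟩ := hkon 3 Z hZ hpos K β
  refine ⟨L, fun σ => ?_, fun x => ?_⟩
  · change _ = sgn β * (K.T ((DZ Z).map σ)).trace
    rw [(T_map hc hZ hpos K σ).2, hL2, hL3, Int.cast_mul]
    cases β
    · change ((-1 : ℤ) : ℂ) * ((chi (-K.μ) σ : ℤ) : ℂ) = -1 * _
      rw [chi_neg]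
      push_cast
      rfl
    · change ((1 : ℤ) : ℂ) * ((chi K.μ σ : ℤ) : ℂ) = 1 * _
      push_cast
      rfl
  · rw [hL4]
    rfl

theorem cV_add {B : Type*} (x y : B → ℚ) : cV (x + y) = cV x + cV y := by
  funext i
  simp [cV]

theorem cV_smul {B : Type*} (a : ℚ) (x : B → ℚ) : cV (a • x) = (a : ℂ) • cV x := by
  funext i
  simp [cV]

/-- The coordinate as a form. -/
noncomputable def lF {B : Type} (f : (B → ℂ) →ₗ[ℂ] ℂ) :
    MultilinearMap ℚ (fun _ : Fin 1 => B → ℚ) ℂ :=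
  MultilinearMap.ofSubsingleton ℚ (B → ℚ) ℂ (0 : Fin 1)
    { toFun := fun x => f (cV x)
      map_add' := fun x y => by rw [cV_add, map_add]
      map_smul' := fun a x => by
        rw [cV_smul, map_smul, RingHom.id_apply, smul_eq_mul, Algebra.smul_def (R := ℚ)]
        rfl }

theorem lF_apply {B : Type} (f : (B → ℂ) →ₗ[ℂ] ℂ) (x : Fin 1 → B → ℚ) :
    lF f x = f (cV (x 0)) := rfl

/-- The data of an abelian variety of CM type. -/
theorem hasP_C (hcwt : S_cwt) {g : ℕ} (Z : Matrix (Fin g) (Fin g) ℂ) (hZ : Zᵀ = Z)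
    (hpos : (imM Z).PosDef) (C : CZ Z) (hCM : CP.P (ofZ Z hZ hpos)) : HasP Z hZ hpos := by
  refine ⟨Fin g, inferInstance, fun _ => 1, fun k => pieC hZ C k, fun k => Or.inr ?_,
    fun y => resC hZ C y⟩
  refine ⟨rfl, hCM, fun β => ?_⟩
  have h1 : ∀ σ : ℂ ≃+* ℂ, (C.T k ((DZ Z).map σ)).trace = (C.c k σ : ℂ) := by
    intro σ
    unfold Matrix.trace
    rw [Fintype.sum_unique]
    exact C.T_map k σ _ _
  cases β
  · refine ⟨fun σ => -(C.c k σ.symm), lF (C.zc k false 0), fun σ => ?_, ?_, fun x => rfl⟩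
    · change _ = -1 * (C.T k ((DZ Z).map σ.symm)).trace
      rw [h1, Int.cast_neg, neg_one_mul]
    · exact (hcwt g Z hZ hpos C k _).2 fun x => rfl
  · refine ⟨fun σ => C.c k σ.symm, lF (C.zc k true 0), fun σ => ?_, ?_, fun x => rfl⟩
    · change _ = 1 * (C.T k ((DZ Z).map σ.symm)).trace
      rw [h1, one_mul]
    · exact (hcwt g Z hZ hpos C k _).1 fun x => rfl

/-- The data of a simple factor. -/
theorem data_of_simple (hc : Pool.Agent.Q144.D3.S_chiz') (hkon : S_kon) (htri : S_tri)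
    (hfull : S_full) (hcz : S_cz) (hcwt : S_cwt) {g : ℕ}
    (Z : Matrix (Fin g) (Fin g) ℂ) (hZ : Zᵀ = Z) (hpos : (imM Z).PosDef) (hs : IsSimpleAV Z)
    (hg : g ≤ 3 ∨ Comm Z) (hCM : Comm Z → CP.P (ofZ Z hZ hpos)) :
    HasPcs (DZ Z) ∨ HasP Z hZ hpos := by
  by_cases h : Comm Z
  · right
    obtain ⟨C⟩ := hcz g Z hZ hpos h
    exact hasP_C hcwt Z hZ hpos C (hCM h)
  · rcases htri g Z hZ hpos hs (hg.resolve_right h) with h1 | h1 | ⟨h3, ⟨K⟩⟩
    · exact absurd h1 h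
    · exact Or.inl h1
    · exact Or.inr (hasP_K hc hkon Z hZ hpos K (hfull g Z hZ hpos hs h K) h3.symm)

/-- Transport along an isomorphism. -/
theorem gen_transport (X Y : AV) (a : X.H ≃ₗ[ℚ] Y.H) (c : X.T ≃ₗ[ℂ] Y.T)
    (hac : ∀ w, c (X.per w) = Y.per (a w)) {κ : Type}
    (h : ∀ f : Y.H [⋀^κ]→ₗ[ℚ] ℚ, IsHodge Y.per f → Gen Y κ f) (f : X.H [⋀^κ]→ₗ[ℚ] ℚ)
    (hf : IsHodge X.per f) : Gen X κ f := by
  have h1 : IsHodge Y.per (f.compLinearMap a.symm.toLinearMap) := by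
    refine Pool.Agent.W437.HK.isHodge_pullback (Φ := c.symm.toLinearMap) (fun w => ?_) hf
    have h2 := hac (a.symm w)
    rw [a.apply_symm_apply] at h2
    change X.per (a.symm w) = c.symm (Y.per w)
    rw [← h2, c.symm_apply_apply]
  have h3 := Gen.pull (X := X) (Y := Y) a.toLinearMap ⟨c.toLinearMap, hac⟩ _ (h _ h1)
  have h4 : (f.compLinearMap a.symm.toLinearMap).compLinearMap a.toLinearMap = f := by
    ext v
    change f (fun l => a.symm (a (v l))) = f v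
    congr 1
    funext l
    exact a.symm_apply_apply _
  rwa [h4] at h3

/-- The theorem on Hodge classes, from the lemmas. -/
theorem top (hgrs : S_grs) (hsps : S_sps) (hdarb : S_darb) (hexp : S_exp)
    (hc : Pool.Agent.Q144.D3.S_chiz') (hkon : S_kon) (hwgt : S_wgt) (hish : S_ish)
    (hbal : S_bal) (hlin : S_good_lin) (halt : S_good_alt) (hdesc : S_desc)
    (htri : S_tri) (hfull : S_full) (hcz : S_cz) (hcwt : S_cwt) (hclose : S_close)
    (ι : Type) [Finite ι] (X : AV) (A : ι → AV) (hX : IsIsogenousToProd X A)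
    (hs : ∀ i, IsSimple (A i)) (hd : ∀ i, Module.finrank ℂ (A i).T ≤ 3 ∨ CP.P (A i))
    (hcmP : ∀ i, IsCM (A i) → CP.P (A i))
    (κ : Type) [Finite κ] (f : X.H [⋀^κ]→ₗ[ℚ] ℚ) (hf : IsHodge X.per f) : Gen X κ f := by
  refine hclose ?_ ι X A hX hs hd hcmP κ f hf
  intro ι _ _ g Z hZ hpos hs hg hCM Y a c hac κ _ f hf
  have hZb : (bigD ℂ Z)ᵀ = bigD ℂ Z := bigD_symm hZ
  have hposb := imM_bigD_posDef Z hpos
  exact gen_transport Y (ofZ (bigD ℂ Z) hZb hposb) a c hac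
    (fun f' hf' => gen_of_hodge Z hZ hpos hZb hposb hgrs hsps hdarb hexp hwgt hish
      hbal hlin halt hdesc (fun i => data_of_simple hc hkon htri hfull hcz hcwt (Z i) (hZ i)
        (hpos i) (hs i) (hg i) (hCM i (hZ i) (hpos i))) f' hf') f hf

end Pool.Agent.Q60.D3P
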